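import Pool.Agent.W958.ST.Stms

/-!
ST-8: the sequence `φB` is homogeneous and regular.
-/

set_option autoImplicit false

namespace Pool.Agent.W177.ST

open MvPolynomial Pool.Agent.W958.ST

/-- a monic polynomial is a nonzerodivisor modulo an extended ideal -/
lemma monic_mem {R : Type} [CommRing R] (J : Ideal R) (Q B : Polynomial R) (hQ : Q.Monic)
    (h : Q * B ∈ J.map Polynomial.C) : B ∈ J.map Polynomial.C := by
  rw [Ideal.mem_map_C_iff] at h ⊢
  have h1 : (Q * B).map (Ideal.Quotient.mk J) = 0 := by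
    ext n
    rw [Polynomial.coeff_map, Polynomial.coeff_zero]
    exact Ideal.Quotient.eq_zero_iff_mem.2 (h n)
  rw [Polynomial.map_mul] at h1
  have h2 := ((hQ.map (Ideal.Quotient.mk J)).mul_right_eq_zero_iff).1 h1
  intro n
  have h3 := congrArg (fun p => Polynomial.coeff p n) h2
  simp only [Polynomial.coeff_map, Polynomial.coeff_zero] at h3
  exact Ideal.Quotient.eq_zero_iff_mem.1 h3

lemma eval_mem {R : Type} [CommRing R] (J : Ideal R) (B : Polynomial R) (x : R)
    (h : B ∈ J.map Polynomial.C) : B.eval x ∈ J := by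
  rw [Ideal.mem_map_C_iff] at h
  rw [Polynomial.eval_eq_sum_range]
  exact Ideal.sum_mem _ fun n _ => Ideal.mul_mem_right _ _ (h n)

variable {σ K : Type} [Field K] [DecidableEq σ]

/-- make the variable `i` the variable of a polynomial ring -/
noncomputable def θ (i : σ) : MvPolynomial σ K →ₐ[K] Polynomial (MvPolynomial σ K) :=
  aeval (fun j => if j = i then Polynomial.X else Polynomial.C (X j))

omit [DecidableEq σ] in
lemma algMap (a : K) : algebraMap K (Polynomial (MvPolynomial σ K)) a = Polynomial.C (C a) := rfl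

@[simp] lemma θ_C (i : σ) (a : K) : θ i (C a) = Polynomial.C (C a) := by
  unfold θ
  rw [← algMap, ← MvPolynomial.algebraMap_eq, AlgHom.commutes]

lemma θ_X_ne {i j : σ} (h : j ≠ i) : θ (K := K) i (X j) = Polynomial.C (X j) := by
  unfold θ
  rw [aeval_X, if_neg h]

lemma θ_X_eq (i : σ) : θ (K := K) i (X i) = Polynomial.X := by
  unfold θ
  rw [aeval_X, if_pos rfl]

lemma eval_θ (i : σ) (b : MvPolynomial σ K) : (θ i b).eval (X i) = b := by
  induction b using MvPolynomial.induction_on with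
  | C a => simp
  | add p q hp hq => rw [map_add, Polynomial.eval_add, hp, hq]
  | mul_X p j hp =>
    rw [map_mul, Polynomial.eval_mul, hp]
    by_cases hj : j = i
    · rw [hj, θ_X_eq, Polynomial.eval_X]
    · rw [θ_X_ne hj, Polynomial.eval_C]

lemma reg_step (i : σ) (G : Set (MvPolynomial σ K)) (hG : ∀ g ∈ G, θ i g = Polynomial.C g)
    (P b : MvPolynomial σ K) (hP : (θ i P).Monic) (h : P * b ∈ Ideal.span G) :
    b ∈ Ideal.span G := by
  have h1 : ∀ x ∈ Ideal.span G, θ i x ∈ (Ideal.span G).map Polynomial.C := by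
    intro x hx
    refine Submodule.span_induction ?_ ?_ ?_ ?_ hx
    · intro g hg
      rw [hG g hg]
      exact Ideal.mem_map_of_mem _ (Ideal.subset_span hg)
    · rw [map_zero]; exact Ideal.zero_mem _
    · intro x y _ _ hx hy
      rw [map_add]; exact Ideal.add_mem _ hx hy
    · intro a x _ hx
      rw [smul_eq_mul, map_mul]; exact Ideal.mul_mem_left _ _ hx
  have h2 := h1 _ h
  rw [map_mul] at h2
  have h3 := monic_mem _ _ _ hP h2
  have h4 := eval_mem _ _ (X i) h3
  rwa [eval_θ] at h4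

lemma num_eq (n : ℕ) [n.AtLeastTwo] :
    (OfNat.ofNat n : MvPolynomial (Fin 12) ℚ) = C (OfNat.ofNat n) := (map_ofNat C n).symm

theorem hom (i : Fin 12) : (φB i).IsHomogeneous (dB i) := by
  have hlt := Nat.mod_lt i.1 (show 0 < 3 by norm_num)
  unfold φB dB
  simp only
  have c2 : IsHomogeneous (2 : MvPolynomial (Fin 12) ℚ) 0 := by
    rw [num_eq 2]; exact isHomogeneous_C _ _
  have c4 : IsHomogeneous (4 : MvPolynomial (Fin 12) ℚ) 0 := by
    rw [num_eq 4]; exact isHomogeneous_C _ _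
  have c6 : IsHomogeneous (-6 : MvPolynomial (Fin 12) ℚ) 0 := by
    have : IsHomogeneous (6 : MvPolynomial (Fin 12) ℚ) 0 := by
      rw [num_eq 6]; exact isHomogeneous_C _ _
    exact this.neg
  split_ifs with h0 h1
  · rw [h0]
    exact c6.mul ((isHomogeneous_X _ _).pow 3)
  · rw [h1]
    exact (c2.mul ((isHomogeneous_X _ _).pow 2)).sub
      ((c4.mul (isHomogeneous_X _ _)).mul (isHomogeneous_X _ _))
  · have h2 : i.1 % 3 = 2 := by omega
    rw [h2]
    exact ((isHomogeneous_X _ _).sub (c2.mul (isHomogeneous_X _ _))).add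
      (c2.mul (isHomogeneous_X _ _))

lemma θ_num (i : Fin 12) (n : ℕ) [n.AtLeastTwo] :
    θ (K := ℚ) i (OfNat.ofNat n) = Polynomial.C (OfNat.ofNat n) := by
  rw [num_eq n, θ_C]

lemma θ_φB (m j : Fin 12) (h : j < m) : θ m (φB j) = Polynomial.C (φB j) := by
  have hlt := Nat.mod_lt j.1 (show 0 < 3 by norm_num)
  have hne : ∀ c : Fin 3, c.1 ≤ j.1 % 3 → idx ⟨j.1 / 3, by omega⟩ c ≠ m := by
    intro c hc he
    have h1 : 3 * (j.1 / 3) + c.1 = m.1 := congrArg Fin.val he
    have h2 : j.1 < m.1 := h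
    omega
  unfold φB
  simp only
  split_ifs with h0 h1
  · have e0 := θ_X_ne (K := ℚ) (hne 0 (Nat.zero_le _))
    simp only [map_mul, map_pow, map_neg, map_ofNat, e0]
  · have e0 := θ_X_ne (K := ℚ) (hne 0 (Nat.zero_le _))
    have e1 := θ_X_ne (K := ℚ) (hne 1 (by rw [h1]; decide))
    simp only [map_sub, map_mul, map_pow, map_ofNat, e0, e1]
  · have h2 : j.1 % 3 = 2 := by omega
    have e0 := θ_X_ne (K := ℚ) (hne 0 (Nat.zero_le _))
    have e1 := θ_X_ne (K := ℚ) (hne 1 (by rw [h2]; decide))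
    have e2 := θ_X_ne (K := ℚ) (hne 2 (by rw [h2]; decide))
    simp only [map_sub, map_add, map_mul, map_ofNat, e0, e1, e2]

lemma monic_φB (m : Fin 12) : ∃ (u : ℚ) (P : MvPolynomial (Fin 12) ℚ), u ≠ 0 ∧ φB m = C u * P ∧
    (θ m P).Monic := by
  have hlt := Nat.mod_lt m.1 (show 0 < 3 by norm_num)
  have heq : ∀ c : Fin 3, c.1 = m.1 % 3 → idx ⟨m.1 / 3, by omega⟩ c = m := by
    intro c hc
    apply Fin.ext
    change 3 * (m.1 / 3) + c.1 = m.1
    omega
  have hne : ∀ c : Fin 3, c.1 < m.1 % 3 → idx ⟨m.1 / 3, by omega⟩ c ≠ m := by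
    intro c hc he
    have h1 : 3 * (m.1 / 3) + c.1 = m.1 := congrArg Fin.val he
    omega
  unfold φB
  simp only
  split_ifs with h0 h1
  · have e0 := heq 0 (by rw [h0]; rfl)
    rw [e0]
    refine ⟨-6, X m ^ 3, by norm_num, ?_, ?_⟩
    · rw [map_neg, num_eq 6]
    · rw [map_pow, θ_X_eq]
      exact Polynomial.monic_X_pow 3
  · have e1 := heq 1 (by rw [h1]; rfl)
    have n0 := θ_X_ne (K := ℚ) (hne 0 (by rw [h1]; decide))
    rw [e1]
    refine ⟨2, X m * (X m - 2 * X (idx ⟨m.1 / 3, by omega⟩ 0)), by norm_num, ?_, ?_⟩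
    · rw [← num_eq 2]; ring
    · rw [map_mul, map_sub, map_mul, θ_num, n0, θ_X_eq, ← Polynomial.C_mul]
      exact Polynomial.monic_X.mul (Polynomial.monic_X_sub_C _)
  · have h2 : m.1 % 3 = 2 := by omega
    have e2 := heq 2 (by rw [h2]; rfl)
    have n0 := θ_X_ne (K := ℚ) (hne 0 (by rw [h2]; decide))
    have n1 := θ_X_ne (K := ℚ) (hne 1 (by rw [h2]; decide))
    rw [e2]
    refine ⟨1, X m - (2 * X (idx ⟨m.1 / 3, by omega⟩ 1) - 2 * X (idx ⟨m.1 / 3, by omega⟩ 0)),
      by norm_num, ?_, ?_⟩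
    · rw [C_1]; ring
    · rw [map_sub, map_sub, map_mul, map_mul, θ_num, n0, n1, θ_X_eq, ← Polynomial.C_mul,
        ← Polynomial.C_mul, ← Polynomial.C_sub]
      exact Polynomial.monic_X_sub_C _

theorem main_reg : StReg := by
  refine ⟨hom, fun m b h => ?_⟩
  obtain ⟨u, P, hu, hP, hmon⟩ := monic_φB m
  refine reg_step m _ ?_ P b hmon ?_
  · rintro g ⟨j, hj, rfl⟩
    exact θ_φB m j hj
  · have h1 : P * b = C u⁻¹ * (φB m * b) := by
      rw [hP, ← mul_assoc, ← mul_assoc, ← C_mul, inv_mul_cancel₀ hu, C_1, one_mul]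
    rw [h1]
    exact Ideal.mul_mem_left _ _ h

end Pool.Agent.W177.ST
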