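import Pool.Agent.W958.ST.Stms

/-!
ST-10: number of monomials.
-/

set_option autoImplicit false

namespace Pool.Agent.W177.ST

open MvPolynomial Pool.Agent.W958.ST

theorem sdim_eq (K : Type) [Field K] (n k : ℕ) : sdim K (Fin n) k = n.multichoose k := by
  classical
  unfold sdim
  rw [homogeneousSubmodule_eq_finsupp_supported, AddMonoidAlgebra.supported_eq_span_single]
  have hs : {d : Fin n →₀ ℕ | d.degree = k} =
      ((Finset.univ.finsuppAntidiag k : Finset (Fin n →₀ ℕ)) : Set (Fin n →₀ ℕ)) := by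
    ext d
    simp only [Set.mem_ofPred_eq, Finset.mem_coe, Finset.mem_finsuppAntidiag, Finset.subset_univ,
      and_true]
    rw [Finsupp.degree_eq_sum]
  rw [hs]
  have hli : LinearIndependent K (fun d : ((Finset.univ.finsuppAntidiag k : Finset (Fin n →₀ ℕ)) :
      Set (Fin n →₀ ℕ)) => (AddMonoidAlgebra.single (d : Fin n →₀ ℕ) (1 : K) :
        AddMonoidAlgebra K (Fin n →₀ ℕ))) := by
    have h1 := (basisMonomials (Fin n) K).linearIndependent
    have h2 := h1.comp (fun d : ((Finset.univ.finsuppAntidiag k : Finset (Fin n →₀ ℕ)) :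
      Set (Fin n →₀ ℕ)) => (d : Fin n →₀ ℕ)) Subtype.val_injective
    have e : (fun d : ((Finset.univ.finsuppAntidiag k : Finset (Fin n →₀ ℕ)) :
      Set (Fin n →₀ ℕ)) => (AddMonoidAlgebra.single (d : Fin n →₀ ℕ) (1 : K) :
        AddMonoidAlgebra K (Fin n →₀ ℕ))) = (basisMonomials (Fin n) K) ∘
        (fun d : ((Finset.univ.finsuppAntidiag k : Finset (Fin n →₀ ℕ)) :
      Set (Fin n →₀ ℕ)) => (d : Fin n →₀ ℕ)) := by
      funext d
      simp [coe_basisMonomials, MvPolynomial.single_eq_monomial]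
    rw [e]
    exact h2
  rw [Set.image_eq_range]
  have h3 := finrank_span_eq_card hli
  refine Eq.trans h3 ?_
  have h4 : Fintype.card ((Finset.univ.finsuppAntidiag k : Finset (Fin n →₀ ℕ)) :
      Set (Fin n →₀ ℕ)) = (Finset.univ.finsuppAntidiag k : Finset (Fin n →₀ ℕ)).card := by
    simp
  rw [h4, Finset.card_finsuppAntidiag_nat_eq_multichoose, Finset.card_fin]

theorem sdim_four (K : Type) [Field K] (k : ℕ) : sdim K (Fin 4) k = (k + 3).choose 3 := by
  rw [sdim_eq, Nat.multichoose_eq, show 4 + k - 1 = k + 3 by omega]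
  rw [← Nat.choose_symm_of_eq_add (show k + 3 = k + 3 by rfl)]

theorem main_sdim : StSdim := by
  intro K _ n
  unfold gen
  rcases n with _ | n
  · rw [pow_zero, one_mul]
    ext k
    rw [PowerSeries.coeff_mk, sdim_eq, PowerSeries.coeff_one]
    rcases k with _ | k
    · simp
    · simp
  · have e : (PowerSeries.mk fun k => ((sdim K (Fin (n + 1)) k : ℕ) : ℤ)) =
        (PowerSeries.mk 1 : PowerSeries ℤ) ^ (n + 1) := by
      rw [PowerSeries.mk_one_pow_eq_mk_choose_add]
      ext k
      rw [PowerSeries.coeff_mk, PowerSeries.coeff_mk, sdim_eq, Nat.multichoose_eq]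
      congr 1
      rw [show n + 1 + k - 1 = n + k by omega, Nat.choose_symm_of_eq_add rfl]
    rw [e, ← mul_pow, mul_comm, PowerSeries.mk_one_mul_one_sub_eq_one, one_pow]

end Pool.Agent.W177.ST
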